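import Mathlib

set_option autoImplicit false

namespace Pool.Agent.Helper94.XV

/-- V5 -/
theorem absorb {d : ℝ} (hd : 0 < d) : ∃ G : ℕ, 1 ≤ G ∧ ∀ q : ℕ, 16 ≤ q → ∀ m : ℕ, G ≤ m →
    ∀ β : ℝ, 1 ≤ β → β ≤ (m : ℝ) ^ (4 / 5 : ℝ) →
    13 * (q : ℝ) ^ (-(2 * d * m / β)) ≤ (q : ℝ) ^ (-(d * m / β)) := by
  obtain ⟨G, hG⟩ := exists_nat_ge ((1 / d) ^ 5)
  refine ⟨G + 1, by omega, fun q hq m hm β hβ1 hβ2 => ?_⟩
  have hm1 : (1 / d) ^ 5 ≤ (m : ℝ) := by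
    refine hG.trans ?_
    exact_mod_cast (by omega : G ≤ m)
  have hm0 : (0 : ℝ) < m := by
    have : 0 < m := by omega
    exact_mod_cast this
  have hβ0 : 0 < β := by linarith
  have hq1 : (16 : ℝ) ≤ q := by exact_mod_cast hq
  have hq0 : (0 : ℝ) < q := by linarith
  have h5 : 1 / d ≤ (m : ℝ) ^ (1 / 5 : ℝ) := by
    have h0 : (0 : ℝ) ≤ 1 / d := by positivity
    have e : 1 / d = ((1 / d) ^ 5) ^ (1 / 5 : ℝ) := by
      rw [← Real.rpow_natCast, ← Real.rpow_mul h0]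
      norm_num
    rw [e]
    exact Real.rpow_le_rpow (by positivity) hm1 (by norm_num)
  have hmm : (m : ℝ) = (m : ℝ) ^ (4 / 5 : ℝ) * (m : ℝ) ^ (1 / 5 : ℝ) := by
    rw [← Real.rpow_add hm0]
    norm_num
  have hx : 1 ≤ d * m / β := by
    rw [le_div_iff₀ hβ0, one_mul]
    have h6 : 1 ≤ d * (m : ℝ) ^ (1 / 5 : ℝ) := by
      rw [div_le_iff₀ hd] at h5
      linarith
    have h7 : (0 : ℝ) ≤ (m : ℝ) ^ (4 / 5 : ℝ) := by positivity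
    calc β ≤ (m : ℝ) ^ (4 / 5 : ℝ) := hβ2
      _ ≤ (m : ℝ) ^ (4 / 5 : ℝ) * (d * (m : ℝ) ^ (1 / 5 : ℝ)) := le_mul_of_one_le_right h7 h6
      _ = d * ((m : ℝ) ^ (4 / 5 : ℝ) * (m : ℝ) ^ (1 / 5 : ℝ)) := by ring
      _ = d * m := by rw [← hmm]
  have e1 : -(2 * d * m / β) = -(d * m / β) + -(d * m / β) := by ring
  rw [e1, Real.rpow_add hq0]
  have h8 : (q : ℝ) ^ (-(d * m / β)) ≤ 1 / 16 := by
    have h9 : (q : ℝ) ^ (-(d * m / β)) ≤ (q : ℝ) ^ (-1 : ℝ) :=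
      Real.rpow_le_rpow_of_exponent_le (by linarith) (by linarith)
    refine h9.trans ?_
    rw [Real.rpow_neg_one, inv_eq_one_div]
    exact one_div_le_one_div_of_le (by norm_num) hq1
  have h10 : 0 < (q : ℝ) ^ (-(d * m / β)) := by positivity
  nlinarith

end Pool.Agent.Helper94.XV
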