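import Mathlib

set_option autoImplicit false

namespace Pool.Agent.Helper94.XV

open Filter

/-- V4 -/
theorem asymp {d₀ : ℝ} (h0 : 0 < d₀) : ∃ G : ℕ, 10 ^ 10 ≤ G ∧ ∀ m : ℕ, G ≤ m → ∀ β : ℝ, 1 ≤ β →
    β ≤ (m : ℝ) ^ (4 / 5 : ℝ) → 24 * (m : ℝ) ^ (2 * β) ≤ Real.exp (d₀ * m / 2) := by
  have h1 : ∀ᶠ x : ℝ in atTop, ‖Real.log x‖ ≤ d₀ / 8 * ‖x ^ (1 / 5 : ℝ)‖ :=
    (isLittleO_log_rpow_atTop (by norm_num : (0 : ℝ) < 1 / 5)).bound (by positivity)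
  have h2 : ∀ᶠ x : ℝ in atTop, Real.log 24 ≤ d₀ / 4 * x := by
    filter_upwards [eventually_ge_atTop (Real.log 24 / (d₀ / 4))] with x hx
    rw [div_le_iff₀ (by positivity)] at hx
    linarith
  have h3 := tendsto_natCast_atTop_atTop (R := ℝ)
  obtain ⟨G1, hG1⟩ := eventually_atTop.1 (h3.eventually (h1.and h2))
  refine ⟨max G1 (10 ^ 10), le_max_right _ _, fun m hm β hβ1 hβ2 => ?_⟩
  obtain ⟨a1, a2⟩ := hG1 m ((le_max_left _ _).trans hm)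
  have hm10 : 10 ^ 10 ≤ m := (le_max_right _ _).trans hm
  have hm1 : (1 : ℝ) ≤ m := by
    have : 1 ≤ m := le_trans (by norm_num) hm10
    exact_mod_cast this
  have hm0 : (0 : ℝ) < m := by linarith
  have hlog : 0 ≤ Real.log m := Real.log_nonneg hm1
  rw [Real.norm_of_nonneg hlog, Real.norm_of_nonneg (by positivity)] at a1
  have hmm : (m : ℝ) = (m : ℝ) ^ (4 / 5 : ℝ) * (m : ℝ) ^ (1 / 5 : ℝ) := by
    rw [← Real.rpow_add hm0]
    norm_num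
  have h45 : (0 : ℝ) ≤ (m : ℝ) ^ (4 / 5 : ℝ) := by positivity
  have h4 : 2 * β * Real.log m ≤ d₀ / 4 * m := by
    calc 2 * β * Real.log m ≤ 2 * (m : ℝ) ^ (4 / 5 : ℝ) * Real.log m := by
          apply mul_le_mul_of_nonneg_right _ hlog
          linarith
      _ ≤ 2 * (m : ℝ) ^ (4 / 5 : ℝ) * (d₀ / 8 * (m : ℝ) ^ (1 / 5 : ℝ)) :=
          mul_le_mul_of_nonneg_left a1 (by positivity)
      _ = d₀ / 4 * ((m : ℝ) ^ (4 / 5 : ℝ) * (m : ℝ) ^ (1 / 5 : ℝ)) := by ring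
      _ = d₀ / 4 * m := by rw [← hmm]
  have e1 : (24 : ℝ) = Real.exp (Real.log 24) := (Real.exp_log (by norm_num)).symm
  have e2 : (m : ℝ) ^ (2 * β) = Real.exp (2 * β * Real.log m) := by
    rw [Real.rpow_def_of_pos hm0]
    congr 1
    ring
  calc 24 * (m : ℝ) ^ (2 * β) = Real.exp (Real.log 24) * Real.exp (2 * β * Real.log m) := by
        rw [← e1, e2]
    _ = Real.exp (Real.log 24 + 2 * β * Real.log m) := (Real.exp_add _ _).symm
    _ ≤ Real.exp (d₀ * m / 2) := by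
        apply Real.exp_le_exp.mpr
        linarith

end Pool.Agent.Helper94.XV
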